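import Mathlib

/-!
# Square roots of unipotent elements and self-adjoint systems of idempotents
-/

open Polynomial

namespace Pool.Agent.W550.Dual

/-- Square roots of `1 + X` modulo powers of `X`. -/
lemma exists_sqrt (m : ℕ) : ∃ s : ℚ[X], s.coeff 0 = 1 ∧ (X : ℚ[X]) ^ (m + 1) ∣ s ^ 2 - (1 + X) := by
  induction m with
  | zero =>
    refine ⟨1, by simp, ?_⟩
    rw [zero_add, pow_one, one_pow]
    exact ⟨-1, by ring⟩
  | succ m ih =>
    obtain ⟨s, hs, r, hr⟩ := ih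
    refine ⟨s - Polynomial.C (r.coeff 0 / 2) * X ^ (m + 1), ?_, ?_⟩
    · simp [hs]
    · have h1 : (s - Polynomial.C (r.coeff 0 / 2) * X ^ (m + 1)) ^ 2 - (1 + X) =
          X ^ (m + 1) * (r - Polynomial.C (r.coeff 0) * s +
            Polynomial.C (r.coeff 0 ^ 2 / 4) * X ^ (m + 1)) := by
        have h2 : (Polynomial.C (r.coeff 0) : ℚ[X]) =
            Polynomial.C (r.coeff 0 / 2) + Polynomial.C (r.coeff 0 / 2) := by
          rw [← Polynomial.C_add]; congr 1; ring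
        have h3 : (Polynomial.C (r.coeff 0 ^ 2 / 4) : ℚ[X]) =
            Polynomial.C (r.coeff 0 / 2) * Polynomial.C (r.coeff 0 / 2) := by
          rw [← Polynomial.C_mul]; congr 1; ring
        rw [h3, h2]
        linear_combination hr
      rw [h1, pow_succ X (m + 1)]
      refine mul_dvd_mul_left _ ?_
      rw [Polynomial.X_dvd_iff]
      simp [hs]

variable {R : Type*} [Ring R] [Algebra ℚ R]

/-- The square root of a unipotent element. -/
theorem exists_unit_sqrt (τ : R →ₗ[ℚ] R) (hτ1 : τ 1 = 1) (hτm : ∀ x y, τ (x * y) = τ y * τ x)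
    {N : R} (hN : IsNilpotent N) (hτN : τ N = N) :
    ∃ (V : Rˣ) (w w' : R), (V : R) * V = 1 + N ∧ (V : R) = 1 + N * w ∧
      ((V⁻¹ : Rˣ) : R) = 1 + N * w' ∧ τ V = V ∧ τ ((V⁻¹ : Rˣ) : R) = ((V⁻¹ : Rˣ) : R) := by
  obtain ⟨m, hm⟩ := hN
  obtain ⟨s, hs, r, hr⟩ := exists_sqrt m
  set v : R := aeval N s with hv
  have hv2 : v * v = 1 + N := by
    have h1 := congrArg (aeval N) hr
    rw [map_sub, map_pow, map_mul, map_pow, map_add, map_one, aeval_X, pow_succ N m, hm, zero_mul,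
      zero_mul, sub_eq_zero, pow_two] at h1
    exact h1
  have hvw : v = 1 + N * aeval N (divX s) := by
    have h1 : s = X * divX s + Polynomial.C 1 := by
      conv_lhs => rw [← X_mul_divX_add s, hs]
    rw [hv]
    conv_lhs => rw [h1]
    rw [map_add, map_mul, aeval_X, map_one, map_one, add_comm]
  have hτpow : ∀ k : ℕ, τ (N ^ k) = N ^ k := by
    intro k
    induction k with
    | zero => rw [pow_zero, hτ1]
    | succ k ih => rw [pow_succ, hτm, ih, hτN, ← pow_succ', pow_succ]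
  have hτv : τ v = v := by
    rw [hv, aeval_eq_sum_range, map_sum]
    exact Finset.sum_congr rfl fun k _ => by rw [map_smul, hτpow]
  have hu : IsUnit (1 + N) := IsNilpotent.isUnit_one_add ⟨m, hm⟩
  obtain ⟨U, hU⟩ := hu
  have hvu : IsUnit v := by
    have hcomm : Commute v (1 + N) := by
      rw [← hv2]
      exact (Commute.refl v).mul_right (Commute.refl v)
    have h1 : v * (v * ((U⁻¹ : Rˣ) : R)) = 1 := by
      rw [← mul_assoc, hv2, ← hU, Units.mul_inv]
    have h2 : ((U⁻¹ : Rˣ) : R) * v * v = 1 := by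
      rw [mul_assoc, hv2, ← hU, Units.inv_mul]
    have h3 : ((U⁻¹ : Rˣ) : R) * v = v * ((U⁻¹ : Rˣ) : R) := by
      calc ((U⁻¹ : Rˣ) : R) * v = ((U⁻¹ : Rˣ) : R) * v * (v * (v * ((U⁻¹ : Rˣ) : R))) := by
            rw [h1, mul_one]
        _ = (((U⁻¹ : Rˣ) : R) * v * v) * (v * ((U⁻¹ : Rˣ) : R)) := by simp only [mul_assoc]
        _ = _ := by rw [h2, one_mul]
    exact ⟨⟨v, v * ((U⁻¹ : Rˣ) : R), h1, by rw [← h3, h2]⟩, rfl⟩
  obtain ⟨V, hV⟩ := hvu
  have hNV : Commute N v := by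
    rw [hvw]
    refine (Commute.one_right N).add_right ((Commute.refl N).mul_right ?_)
    have h1 : aeval N (X * divX s) = aeval N (divX s * X) := by rw [mul_comm]
    rw [map_mul, map_mul, aeval_X] at h1
    exact h1
  refine ⟨V, aeval N (divX s), -(((V⁻¹ : Rˣ) : R) * aeval N (divX s)), by rw [hV, hv2],
    by rw [hV, ← hvw], ?_, by rw [hV, hτv], ?_⟩
  · have h1 : N * ((V⁻¹ : Rˣ) : R) = ((V⁻¹ : Rˣ) : R) * N := by
      have h2 : Commute N (V : R) := by rw [hV]; exact hNV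
      exact h2.units_inv_right.eq
    have h3 : ((V⁻¹ : Rˣ) : R) * (V : R) = 1 := Units.inv_mul V
    rw [hV] at h3
    have h4 : ((V⁻¹ : Rˣ) : R) * (1 + N * aeval N (divX s)) = 1 := by rw [← hvw]; exact h3
    calc ((V⁻¹ : Rˣ) : R) = ((V⁻¹ : Rˣ) : R) * (1 + N * aeval N (divX s)) -
          ((V⁻¹ : Rˣ) : R) * N * aeval N (divX s) := by noncomm_ring
      _ = _ := by rw [h4, ← h1]; noncomm_ring
  · have h1 : τ ((V⁻¹ : Rˣ) : R) * v = 1 := by
      have h2 := hτm v ((V⁻¹ : Rˣ) : R)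
      rw [hτv, ← hV, Units.mul_inv, hτ1] at h2
      rw [← hV]
      exact h2.symm
    calc τ ((V⁻¹ : Rˣ) : R) = τ ((V⁻¹ : Rˣ) : R) * (v * ((V⁻¹ : Rˣ) : R)) := by
          rw [← hV, Units.mul_inv, mul_one]
      _ = _ := by rw [← mul_assoc, h1, one_mul]

/-- Making a system of idempotents self-adjoint. -/
theorem selfAdjoint_system (τ : R →ₗ[ℚ] R) (hτ1 : τ 1 = 1)
    (hτm : ∀ x y, τ (x * y) = τ y * τ x) (hττ : ∀ x, τ (τ x) = x) {d : ℕ} {p : ℕ → R}
    (hp : ∀ i j, p i * p j = if i = j then p i else 0)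
    (hN : IsNilpotent (∑ i ∈ Finset.range (2 * d + 1), p i * τ (p (2 * d - i)) - 1)) :
    ∃ (V : Rˣ) (w w' : R),
      (V : R) = 1 + (∑ i ∈ Finset.range (2 * d + 1), p i * τ (p (2 * d - i)) - 1) * w ∧
      ((V⁻¹ : Rˣ) : R) = 1 + (∑ i ∈ Finset.range (2 * d + 1), p i * τ (p (2 * d - i)) - 1) * w' ∧
      ∀ i ≤ 2 * d, τ (((V⁻¹ : Rˣ) : R) * p i * V) = ((V⁻¹ : Rˣ) : R) * p (2 * d - i) * V := by
  set u : R := ∑ i ∈ Finset.range (2 * d + 1), p i * τ (p (2 * d - i)) with hu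
  have hτu : τ u = u := by
    have h1 : τ u = ∑ i ∈ Finset.range (2 * d + 1), p (2 * d - i) * τ (p i) := by
      rw [hu, map_sum]
      exact Finset.sum_congr rfl fun i _ => by rw [hτm, hττ]
    have h2 : ∑ i ∈ Finset.range (2 * d + 1), p (2 * d - i) * τ (p i) =
        ∑ i ∈ Finset.range (2 * d + 1), (fun j => p j * τ (p (2 * d - j))) (2 * d + 1 - 1 - i) := by
      refine Finset.sum_congr rfl fun i hi => ?_
      rw [Finset.mem_range] at hi
      beta_reduce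
      rw [show 2 * d + 1 - 1 - i = 2 * d - i by omega, show 2 * d - (2 * d - i) = i by omega]
    rw [h1, h2, Finset.sum_range_reflect (fun j => p j * τ (p (2 * d - j))) (2 * d + 1)]
  obtain ⟨V, w, w', hVV, hV, hVi, hτV, hτVi⟩ :=
    exists_unit_sqrt τ hτ1 hτm hN (by rw [map_sub, hτu, hτ1])
  rw [add_sub_cancel] at hVV
  refine ⟨V, w, w', hV, hVi, fun i hi => ?_⟩
  have h1 : p (2 * d - i) * u = u * τ (p i) := by
    have h2 : p (2 * d - i) * u = p (2 * d - i) * τ (p i) := by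
      rw [hu, Finset.mul_sum, Finset.sum_eq_single (2 * d - i)]
      · rw [← mul_assoc, hp, if_pos rfl, show 2 * d - (2 * d - i) = i by omega]
      · intro j _ hj
        rw [← mul_assoc, hp, if_neg (Ne.symm hj), zero_mul]
      · intro h
        exact absurd (Finset.mem_range.2 (by omega)) h
    have h3 : u * τ (p i) = p (2 * d - i) * τ (p i) := by
      have h4 : ∀ j ∈ Finset.range (2 * d + 1), p j * τ (p (2 * d - j)) * τ (p i) =
          if j = 2 * d - i then p j * τ (p i) else 0 := by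
        intro j hj
        rw [Finset.mem_range] at hj
        rw [mul_assoc, ← hτm, hp]
        split_ifs with h5 h6 h6
        · rfl
        · omega
        · omega
        · rw [map_zero, mul_zero]
      rw [hu, Finset.sum_mul, Finset.sum_congr rfl h4, Finset.sum_ite_eq',
        if_pos (Finset.mem_range.2 (by omega))]
    rw [h2, h3]
  rw [hτm, hτm, hτV, hτVi]
  -- `V τ(p i) V⁻¹ = V⁻¹ p (2d - i) V`
  have h2 : ((V⁻¹ : Rˣ) : R) * (p (2 * d - i) * (V * V)) * ((V⁻¹ : Rˣ) : R) =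
      ((V⁻¹ : Rˣ) : R) * (V * V * τ (p i)) * ((V⁻¹ : Rˣ) : R) := by rw [hVV, h1]
  have h3 : ((V⁻¹ : Rˣ) : R) * (p (2 * d - i) * (V * V)) * ((V⁻¹ : Rˣ) : R) =
      ((V⁻¹ : Rˣ) : R) * p (2 * d - i) * V := by
    calc _ = ((V⁻¹ : Rˣ) : R) * p (2 * d - i) * V * ((V : R) * ((V⁻¹ : Rˣ) : R)) := by
          simp only [mul_assoc]
      _ = _ := by rw [Units.mul_inv, mul_one]
  have h4 : ((V⁻¹ : Rˣ) : R) * (V * V * τ (p i)) * ((V⁻¹ : Rˣ) : R) =
      V * (τ (p i) * ((V⁻¹ : Rˣ) : R)) := by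
    calc _ = (((V⁻¹ : Rˣ) : R) * (V : R)) * (V * (τ (p i) * ((V⁻¹ : Rˣ) : R))) := by
          simp only [mul_assoc]
      _ = _ := by rw [Units.inv_mul, one_mul]
  rw [← h4, ← h2, h3]

end Pool.Agent.W550.Dual
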