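import Pool.Agent.W550.Murre.Defs

/-!
# Self-dual Chow-Kunneth decompositions: definitions
-/

open CategoryTheory AlgebraicGeometry

universe u v w

namespace Pool.Agent.W550.Dual

open Pool.Agent.H914 Pool.Agent.H914.VarClass Pool.Agent.H914.VarClass.Obj Pool.Agent.W492.BB
  Pool.Agent.W550.Corr Pool.Agent.W550.Murre

variable {k : Type u} [Field k] {𝒱 : VarClass k} {C : TheoryData.{u, v, 0} 𝒱 ℚ}

/-- The transpose of a correspondence. -/
noncomputable def tpose {X : 𝒱.Obj} (Γ : C.A (X.prod X)) : C.A (X.prod X) :=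
  C.up (Obj.lift (snd X X) (fst X X)) Γ

/-- The family `π 0, ..., π (2d)`, `d = dim X`, is self-dual: the transpose of `π j` is
`π (2d - j)`. -/
def IsSelfDual {X : 𝒱.Obj} (π : ℕ → C.A (X.prod X)) : Prop :=
  ∀ j : ℕ, j ≤ 2 * X.dim → tpose (π j) = π (2 * X.dim - j)

/-- The defect of the decomposition `π`: the diagonal minus the sum of the compositions of `π j`
(first) and of the transpose of `π (2d - j)` (second), `j = 0, ..., 2d`. It is zero if `π` is
self-dual. -/
noncomputable def defect {X : 𝒱.Obj} (π : ℕ → C.A (X.prod X)) : C.A (X.prod X) :=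
  dg C X - ∑ j ∈ Finset.range (2 * X.dim + 1), C.comp (π j) (tpose (π (2 * X.dim - j)))

/-- The powers of a correspondence with respect to composition. -/
noncomputable def iter {X : 𝒱.Obj} (Γ : C.A (X.prod X)) : ℕ → C.A (X.prod X)
  | 0 => dg C X
  | m + 1 => C.comp (iter Γ m) Γ

/-- Nilpotent correspondences. -/
def IsNil {X : 𝒱.Obj} (Γ : C.A (X.prod X)) : Prop := ∃ m : ℕ, iter Γ m = 0

variable {K : Type w} [Field K] (H : WeilTheoryData.{u, v, w} C K)

/-- `X` has a Chow-Kunneth decomposition. -/
def HasDec (X : 𝒱.Obj) : Prop := ∃ π : ℕ → C.A (X.prod X), IsCK H X π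

/-- `X` has a self-dual Chow-Kunneth decomposition. -/
def HasSelfDual (X : 𝒱.Obj) : Prop := ∃ π : ℕ → C.A (X.prod X), IsCK H X π ∧ IsSelfDual π

/-- `X` has a Chow-Kunneth decomposition with nilpotent defect. -/
def HasNilDefect (X : 𝒱.Obj) : Prop := ∃ π : ℕ → C.A (X.prod X), IsCK H X π ∧ IsNil (defect π)

/-- The self-dual decomposition `ρ` is conjugate to `π`, by `1 + N` with inverse `1 + N'` where `N`,
`N'` are multiples of the defect of `π`; in particular they are homologically trivial. -/
def ConjugateBy {X : 𝒱.Obj} (π ρ : ℕ → C.A (X.prod X)) (N N' : C.A (X.prod X)) : Prop :=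
  C.Deg X.dim N ∧ C.Deg X.dim N' ∧ (∃ w, N = C.comp (defect π) w) ∧
    (∃ w, N' = C.comp (defect π) w) ∧ C.comp (dg C X + N) (dg C X + N') = dg C X ∧
    C.comp (dg C X + N') (dg C X + N) = dg C X ∧
    ∀ j, ρ j = C.comp (C.comp (dg C X + N') (π j)) (dg C X + N)

/-- All homologically trivial correspondences of degree zero from `X` to `X` are nilpotent. -/
def HomNil (X : 𝒱.Obj) : Prop := ∀ Γ : C.A (X.prod X), C.Deg X.dim Γ → H.cl Γ = 0 → IsNil Γ

/-- The truncations (as subobjects of the motive of `X`) of `π` and of its dual decomposition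
`π (2d - a)^t`, `a = 0, ..., 2d`, coincide: the morphisms from `(X, π b)` to the `a`-th component of
the dual decomposition, and from the `b`-th component of the dual decomposition to `(X, π a)`,
which are given by the identity of `X`, are zero for `a > b`. -/
def SelfCompat {X : 𝒱.Obj} (π : ℕ → C.A (X.prod X)) : Prop := ∀ a b : ℕ, b < a →
  a ≤ 2 * X.dim → C.comp (π b) (tpose (π (2 * X.dim - a))) = 0 ∧
    C.comp (tpose (π (2 * X.dim - b))) (π a) = 0

end Pool.Agent.W550.Dual
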