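import Pool.Agent.W550.Dual.Defs
import Pool.Agent.W550.Dual.Sqrt
import Pool.Agent.W550.Murre.Final

/-!
# Self-dual Chow-Kunneth decompositions
-/

open CategoryTheory AlgebraicGeometry

universe u v w

namespace Pool.Agent.W550.Dual

open Pool.Agent.H914 Pool.Agent.H914.VarClass Pool.Agent.H914.VarClass.Obj Pool.Agent.W492.BB
  Pool.Agent.W550.Corr Pool.Agent.W550.Murre

section ring

variable {R S : Type*} [Ring R] [Ring S] {φ : R →+* S} {n : ℕ} {h : ℕ → S} {p q : ℕ → R}

/-- If two systems are compatible in both directions, then `1 - ∑ p i q i` is nilpotent. -/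
lemma isNilpotent_of_compat (hp : IsSys φ n h p) (hq : IsSys φ n h q) (h1 : Compat p q)
    (h2 : Compat q p) : IsNilpotent (1 - ∑ i ∈ Finset.range n, p i * q i) := by
  set N : R := 1 - ∑ i ∈ Finset.range n, p i * q i with hN
  have e1 : ∀ b < n, p b * N = ∑ a ∈ Finset.range b, p b * q a := by
    intro b hbn
    have e2 : p b * (∑ i ∈ Finset.range n, p i * q i) = p b * q b := by
      rw [Finset.mul_sum, Finset.sum_eq_single b]
      · rw [← mul_assoc, hp.idem]
      · intro j _ hj
        rw [← mul_assoc, hp.orth (Ne.symm hj), zero_mul]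
      · intro h
        exact absurd (Finset.mem_range.2 hbn) h
    have e3 : ∑ a ∈ Finset.range (b + 1), p b * q a = p b := by
      have e4 : ∑ a ∈ Finset.range (b + 1), p b * q a = ∑ a ∈ Finset.range n, p b * q a := by
        refine Finset.sum_subset (Finset.range_mono (by omega)) fun a _ ha => ?_
        rw [Finset.mem_range] at ha
        exact h1 b a (by omega)
      rw [e4, ← Finset.mul_sum, hq.sum, mul_one]
    rw [Finset.sum_range_succ] at e3
    rw [hN, mul_sub, mul_one, e2, sub_eq_iff_eq_add]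
    exact e3.symm
  have e5 : ∀ m < n, ps p (m + 1) * N * (1 - ps p m) = 0 := by
    intro m hm
    have e6 : 1 - ps p m = ∑ j ∈ Finset.Ico m n, p j := by
      rw [← hp.sum, sub_eq_iff_eq_add', ps, Finset.range_eq_Ico, Finset.range_eq_Ico,
        Finset.sum_Ico_consecutive _ (Nat.zero_le _) hm.le]
    rw [e6, ps, Finset.sum_mul, Finset.sum_mul]
    refine Finset.sum_eq_zero fun b hb => ?_
    rw [Finset.mem_range] at hb
    rw [e1 b (by omega), Finset.sum_mul]
    refine Finset.sum_eq_zero fun a ha => ?_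
    rw [Finset.mem_range] at ha
    rw [Finset.mul_sum]
    refine Finset.sum_eq_zero fun c hc => ?_
    rw [Finset.mem_Ico] at hc
    rw [mul_assoc, h2 a c (by omega), mul_zero]
  have key : ∀ k ≤ n, N ^ k = N ^ k * ps p (n - k) := by
    intro k
    induction k with
    | zero =>
      intro _
      rw [pow_zero, one_mul, Nat.sub_zero, ps, hp.sum]
    | succ k ih =>
      intro hk
      have e7 := e5 (n - (k + 1)) (by omega)
      rw [show n - (k + 1) + 1 = n - k by omega, mul_sub, mul_one, sub_eq_zero] at e7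
      calc N ^ (k + 1) = N ^ k * ps p (n - k) * N := by rw [pow_succ, ← ih (by omega)]
        _ = N ^ k * (ps p (n - k) * N) := by rw [mul_assoc]
        _ = N ^ k * (ps p (n - k) * N * ps p (n - (k + 1))) := by rw [← e7]
        _ = N ^ k * ps p (n - k) * N * ps p (n - (k + 1)) := by simp only [mul_assoc]
        _ = _ := by rw [← ih (by omega), ← pow_succ]
  refine ⟨n, ?_⟩
  rw [key n le_rfl, Nat.sub_self, ps, Finset.range_zero, Finset.sum_empty, mul_zero]

end ring

variable {k : Type u} [Field k] {𝒱 : VarClass k} {C : TheoryData.{u, v, 0} 𝒱 ℚ} {K : Type w}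
  [Field K] {H : WeilTheoryData.{u, v, w} C K} [hC : IsChow C] [hH : IsWeil H]
  {X Y Z : 𝒱.Obj}

section

variable [hI : HasIso C]

attribute [local instance] instE instH

noncomputable local instance modE (C : TheoryData.{u, v, 0} 𝒱 ℚ) (X : 𝒱.Obj) :
    Module ℚ (EndC C X) := inferInstanceAs (Module ℚ (C.A (X.prod X)))

/-- The algebra structure on the correspondences. -/
noncomputable local instance algE (C : TheoryData.{u, v, 0} 𝒱 ℚ) [IsChow C] [HasIso C]
    (X : 𝒱.Obj) : Algebra ℚ (EndC C X) :=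
  Algebra.ofModule
    (fun r (x y : C.A (X.prod X)) => LinearMap.congr_fun (map_smul (compL C) r x) y)
    (fun r (x y : C.A (X.prod X)) => map_smul (compL C x) r y)

/-- The algebra of correspondences of degree zero. -/
noncomputable def A0 (C : TheoryData.{u, v, 0} 𝒱 ℚ) [IsChow C] [HasIso C] (X : 𝒱.Obj) :
    Subalgebra ℚ (EndC C X) where
  carrier := {x | (x : C.A (X.prod X)) ∈ C.gr (X.prod X) X.dim}
  mul_mem' := fun {a b} ha hb => deg_comp0 (C := C) (X := X) (Γ := a) (Δ := b) ha hb
  add_mem' := fun {a b} ha hb => (C.gr (X.prod X) X.dim).add_mem (x := a) (y := b) ha hb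
  algebraMap_mem' := fun r => by
    rw [Algebra.algebraMap_eq_smul_one]
    exact (C.gr (X.prod X) X.dim).smul_mem r (dg_mem (C := C) X)

/-- The underlying correspondence. -/
noncomputable def un (x : A0 C X) : C.A (X.prod X) := (x : EndC C X)

lemma un_mem (x : A0 C X) : un x ∈ C.gr (X.prod X) X.dim := x.2

/-- The element attached to a correspondence of degree zero. -/
noncomputable def mkA (x : C.A (X.prod X)) (hx : x ∈ C.gr (X.prod X) X.dim) : A0 C X := ⟨x, hx⟩

lemma un_ext {x y : A0 C X} (h : un x = un y) : x = y := Subtype.ext h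
lemma un_mk (x : C.A (X.prod X)) (hx : x ∈ C.gr (X.prod X) X.dim) : un (mkA x hx) = x := rfl
lemma un_mul (x y : A0 C X) : un (x * y) = C.comp (un x) (un y) := rfl
lemma un_one : un (1 : A0 C X) = dg C X := rfl
lemma un_zero : un (0 : A0 C X) = 0 := rfl
lemma un_add (x y : A0 C X) : un (x + y) = un x + un y := rfl
lemma un_sub (x y : A0 C X) : un (x - y) = un x - un y := rfl

/-- The underlying correspondence, as an additive map. -/
noncomputable def unHom : A0 C X →+ C.A (X.prod X) where
  toFun := un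
  map_zero' := rfl
  map_add' := fun _ _ => rfl

lemma un_sum {ι : Type*} (s : Finset ι) (f : ι → A0 C X) :
    un (∑ i ∈ s, f i) = ∑ i ∈ s, un (f i) := map_sum unHom f s

lemma un_pow (x : A0 C X) (m : ℕ) : un (x ^ m) = iter (un x) m := by
  induction m with
  | zero => rw [pow_zero, un_one, iter]
  | succ m ih => rw [pow_succ, un_mul, ih, iter]

lemma isNil_iff (x : A0 C X) : IsNil (un x) ↔ IsNilpotent x := by
  constructor
  · rintro ⟨m, hm⟩
    exact ⟨m, un_ext (by rw [un_pow, hm, un_zero])⟩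
  · rintro ⟨m, hm⟩
    exact ⟨m, by rw [← un_pow, hm, un_zero]⟩

lemma tpose_eq (Γ : C.A (X.prod X)) : tpose Γ = tp C Γ := rfl

/-- The transposition as a linear map. -/
noncomputable def tau (C : TheoryData.{u, v, 0} 𝒱 ℚ) [IsChow C] [HasIso C] (X : 𝒱.Obj) :
    A0 C X →ₗ[ℚ] A0 C X where
  toFun x := mkA (tp C (un x)) (C.pull_mem _ (un_mem x))
  map_add' x y := un_ext (map_add (C.pull (sw X X)) (un x) (un y))
  map_smul' r x := un_ext (map_smul (C.pull (sw X X)) r (un x))

lemma un_tau (x : A0 C X) : un (tau C X x) = tp C (un x) := rfl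

lemma tau_one : tau C X 1 = 1 := un_ext (by rw [un_tau, un_one, tp_dg])
lemma tau_mul (x y : A0 C X) : tau C X (x * y) = tau C X y * tau C X x :=
  un_ext (by rw [un_tau, un_mul, un_mul, un_tau, un_tau, tp_comp])
lemma tau_tau (x : A0 C X) : tau C X (tau C X x) = x :=
  un_ext (by rw [un_tau, un_tau, tp_tp])

/-- The main construction. -/
theorem exists_selfDual [hS : IsStandard H] {π : ℕ → C.A (X.prod X)} (hπ : IsCK H X π) (hN : IsNil (defect π)) :
    ∃ (ρ : ℕ → C.A (X.prod X)) (N N' : C.A (X.prod X)), IsCK H X ρ ∧ IsSelfDual ρ ∧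
      H.cl N = 0 ∧ H.cl N' = 0 ∧ ConjugateBy π ρ N N' := by
  let p : ℕ → A0 C X := fun j => mkA (π j) (hπ.deg j)
  have hp : ∀ i j, p i * p j = if i = j then p i else 0 := by
    intro i j
    apply un_ext
    rw [un_mul]
    change C.comp (π i) (π j) = _
    split_ifs with h
    · rw [h, hπ.idem]; rfl
    · rw [hπ.orth i j h]; rfl
  set D : A0 C X := ∑ i ∈ Finset.range (2 * X.dim + 1), p i * tau C X (p (2 * X.dim - i)) - 1
    with hD
  have hDu : un D = -defect π := by
    rw [hD, un_sub, un_sum, un_one, defect, neg_sub]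
    rfl
  have hDn : IsNilpotent D := by
    rw [← neg_neg D, isNilpotent_neg_iff, ← isNil_iff]
    have h1 : un (-D) = defect π := by
      change -un D = _
      rw [hDu, neg_neg]
    rw [h1]
    exact hN
  obtain ⟨V, w, w', hV, hVi, hself⟩ := selfAdjoint_system (tau C X) tau_one tau_mul tau_tau hp hDn
  rw [← hD] at hV hVi
  -- the class of the defect is zero
  have hD0 : H.cl (un D) = 0 := by
    have h1 : ∀ j ∈ Finset.range (2 * X.dim + 1),
        H.cl (C.comp (π j) (tpose (π (2 * X.dim - j)))) = H.cl (π j) := by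
      intro j hj
      rw [Finset.mem_range] at hj
      have h2 : tpose (π (2 * X.dim - j)) = dualCK π j := by
        rw [dualCK, if_pos (by omega)]; rfl
      rw [h2, cl_comp, (hπ.dual).cl_eq hπ j, ← cl_comp, hπ.idem]
    have h2 : H.cl (defect π) = 0 := by
      have h3 : H.cl (∑ j ∈ Finset.range (2 * X.dim + 1),
          C.comp (π j) (tpose (π (2 * X.dim - j)))) = H.cl (dg C X) := by
        rw [map_sum, Finset.sum_congr rfl h1, ← map_sum, hπ.sum]
      rw [defect, map_sub, h3, sub_self]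
    rw [hDu, map_neg, h2, neg_zero]
  have hclN : ∀ x : A0 C X, H.cl (un (D * x)) = 0 := by
    intro x
    rw [un_mul, cl_comp, hD0, zero_comp]
  have hfac : ∀ x : A0 C X, un (D * x) = C.comp (defect π) (un (-x)) := by
    intro x
    have h1 : D * x = (-D) * (-x) := by rw [neg_mul_neg]
    rw [h1, un_mul]
    congr 1
    change -un D = _
    rw [hDu, neg_neg]
  have hclV : H.cl (un (V : A0 C X)) = dg H.toTheoryData X := by
    rw [hV, un_add, map_add, hclN, un_one, cl_dg, add_zero]
  have hclVi : H.cl (un ((V⁻¹ : (A0 C X)ˣ) : A0 C X)) = dg H.toTheoryData X := by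
    rw [hVi, un_add, map_add, hclN, un_one, cl_dg, add_zero]
  have hVV : (V : A0 C X) * ((V⁻¹ : (A0 C X)ˣ) : A0 C X) = 1 := Units.mul_inv V
  have hVV' : ((V⁻¹ : (A0 C X)ˣ) : A0 C X) * (V : A0 C X) = 1 := Units.inv_mul V
  generalize ((V⁻¹ : (A0 C X)ˣ) : A0 C X) = V' at *
  generalize (V : A0 C X) = V₀ at *
  have hmul : ∀ i j, (V' * p i * V₀) * (V' * p j * V₀) = V' * (p i * p j) * V₀ := by
    intro i j
    calc _ = V' * p i * (V₀ * V') * p j * V₀ := by simp only [mul_assoc]
      _ = _ := by rw [hVV, mul_one]; simp only [mul_assoc]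
  refine ⟨fun j => un (V' * p j * V₀), un (D * w), un (D * w'), ?_, ?_, hclN w, hclN w', ?_⟩
  · refine ⟨fun j => un_mem _, fun j => ?_, fun i j hij => ?_, ?_, fun j hj => ?_,
      fun j l a ha => ?_⟩
    · rw [← un_mul, hmul, hp, if_pos rfl]
    · rw [← un_mul, hmul, hp, if_neg hij, mul_zero, zero_mul, un_zero]
    · have h1 : ∑ j ∈ Finset.range (2 * X.dim + 1), p j = 1 := by
        apply un_ext
        rw [un_sum, un_one, ← hπ.sum]
        rfl
      rw [← un_sum, ← Finset.sum_mul, ← Finset.mul_sum, h1, mul_one, hVV', un_one]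
    · have h1 : p j = 0 := by
        apply un_ext
        change π j = _
        rw [hπ.vanish j hj, un_zero]
      rw [h1, mul_zero, zero_mul, un_zero]
    · rw [un_mul, un_mul, cl_comp, cl_comp, hclV, hclVi, dg_comp, comp_dg]
      exact hπ.coh j l a ha
  · intro j hj
    have h1 := congrArg un (hself j hj)
    exact h1
  · refine ⟨un_mem _, un_mem _, ⟨_, hfac w⟩, ⟨_, hfac w'⟩, ?_, ?_, fun j => ?_⟩
    · rw [← un_one, ← un_add, ← un_add, ← hV, ← hVi, ← un_mul, hVV]
    · rw [← un_one, ← un_add, ← un_add, ← hV, ← hVi, ← un_mul, hVV']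
    · rw [← un_one, ← un_add, ← un_add, ← hV, ← hVi]
      rfl

lemma defect_eq_zero {π : ℕ → C.A (X.prod X)} (hπ : IsCK H X π) (h : IsSelfDual π) :
    defect π = 0 := by
  rw [defect, sub_eq_zero, ← hπ.sum]
  refine Finset.sum_congr rfl fun j hj => ?_
  rw [Finset.mem_range] at hj
  rw [h (2 * X.dim - j) (by omega), show 2 * X.dim - (2 * X.dim - j) = j by omega, hπ.idem]

lemma isNil_zero : IsNil (0 : C.A (X.prod X)) := by
  refine ⟨1, ?_⟩
  rw [iter, iter, comp_zero]

theorem hasSelfDual_iff [hS : IsStandard H] : HasSelfDual H X ↔ HasNilDefect H X := by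
  constructor
  · rintro ⟨π, hπ, h⟩
    exact ⟨π, hπ, by rw [defect_eq_zero hπ h]; exact isNil_zero⟩
  · rintro ⟨π, hπ, h⟩
    obtain ⟨ρ, N, N', hρ, hρ', _⟩ := exists_selfDual hπ h
    exact ⟨ρ, hρ, hρ'⟩

lemma cl_defect [hS : IsStandard H] {π : ℕ → C.A (X.prod X)} (hπ : IsCK H X π) : H.cl (defect π) = 0 := by
  have h1 : ∀ j ∈ Finset.range (2 * X.dim + 1),
      H.cl (C.comp (π j) (tpose (π (2 * X.dim - j)))) = H.cl (π j) := by
    intro j hj
    rw [Finset.mem_range] at hj
    have h2 : tpose (π (2 * X.dim - j)) = dualCK π j := by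
      rw [dualCK, if_pos (by omega)]; rfl
    rw [h2, cl_comp, (hπ.dual).cl_eq hπ j, ← cl_comp, hπ.idem]
  have h3 : H.cl (∑ j ∈ Finset.range (2 * X.dim + 1),
      C.comp (π j) (tpose (π (2 * X.dim - j)))) = H.cl (dg C X) := by
    rw [map_sum, Finset.sum_congr rfl h1, ← map_sum, hπ.sum]
  rw [defect, map_sub, h3, sub_self]

lemma deg_defect {π : ℕ → C.A (X.prod X)} (hπ : IsCK H X π) : C.Deg X.dim (defect π) :=
  Submodule.sub_mem _ (dg_mem X) (Submodule.sum_mem _ fun j _ =>
    deg_comp0 (hπ.deg j) (C.pull_mem _ (hπ.deg _)))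

/-- If the truncations of `π` and of its dual coincide, then the defect is nilpotent. -/
theorem nil_of_selfCompat [hS : IsStandard H] {π : ℕ → C.A (X.prod X)} (hπ : IsCK H X π)
    (hX : SelfCompat π) : IsNil (defect π) := by
  have hd : ∀ a ≤ 2 * X.dim, dualCK π a = tpose (π (2 * X.dim - a)) := by
    intro a ha
    rw [dualCK, if_pos ha]; rfl
  have h1 := isNilpotent_of_compat (hπ.isSys hπ) (hπ.isSys hπ.dual)
    (fun b a hba => cr_ext (by
      rw [cr_mul, toE0_val, toE0_val, cr_zero]
      rcases le_or_gt a (2 * X.dim) with ha | ha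
      · rw [hd a ha, (hX a b hba ha).1]
      · rw [hπ.dual.vanish a ha, comp_zero]))
    (fun b a hba => cr_ext (by
      rw [cr_mul, toE0_val, toE0_val, cr_zero]
      rcases le_or_gt a (2 * X.dim) with ha | ha
      · rw [hd b (by omega), (hX a b hba ha).2]
      · rw [hπ.vanish a ha, comp_zero]))
  obtain ⟨m, hm⟩ := h1
  refine ⟨m, ?_⟩
  have h2 : ∀ (x : E0 C X) (m : ℕ), cr (x ^ m) = iter (cr x) m := by
    intro x m
    induction m with
    | zero => rw [pow_zero, cr_one, iter]
    | succ m ih => rw [pow_succ, cr_mul, ih, iter]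
  have h3 : cr (1 - ∑ i ∈ Finset.range (2 * X.dim + 1), toE0 hπ i * toE0 hπ.dual i) =
      defect π := by
    have h4 : cr (∑ i ∈ Finset.range (2 * X.dim + 1), toE0 hπ i * toE0 hπ.dual i) =
        ∑ j ∈ Finset.range (2 * X.dim + 1), C.comp (π j) (tpose (π (2 * X.dim - j))) := by
      rw [cr_sum]
      refine Finset.sum_congr rfl fun j hj => ?_
      rw [Finset.mem_range] at hj
      rw [cr_mul, toE0_val, toE0_val, hd j (by omega)]
    rw [defect, ← h4]
    rfl
  rw [← h3, ← h2, hm, cr_zero]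

theorem selfCompat_of_truncInd [hS : IsStandard H] {π : ℕ → C.A (X.prod X)} (hπ : IsCK H X π)
    (hX : TruncInd H X) : SelfCompat π := by
  intro a b hba ha
  have hd : ∀ a ≤ 2 * X.dim, dualCK π a = tpose (π (2 * X.dim - a)) := by
    intro a ha
    rw [dualCK, if_pos ha]; rfl
  rw [← hd a ha, ← hd b (by omega)]
  exact ⟨hX _ _ hπ hπ.dual a b hba, hX _ _ hπ.dual hπ a b hba⟩

end

end Pool.Agent.W550.Dual
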